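import Pool.Agent.Zk72.Dil.Final

/-!
For every choice `a` of one class modulo each prime `N^α ≤ p < 2 N^α`, all but few of the dilates
`p ↦ (s / t) a(p)`, together with their translates by multiples of `N`, cover almost `N` of the
integers `1, …, N`.
-/

set_option autoImplicit false

namespace Pool.Agent.Results.MP_bb5cc8_nt.Dilates

open Finset
open Pool.Agent.H170R2.PC (coveredCount)

/-- The choice of residue classes `p ↦ (s / t) a(p) - u` (the inverse of `t` is taken in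
`ℤ / pℤ`). -/
def dilate (a : (p : ℕ) → ZMod p) (s t u : ℕ) : (p : ℕ) → ZMod p :=
  fun p => (s : ZMod p) * (t : ZMod p)⁻¹ * a p - (u : ZMod p)

/-- The triples `(s, t, j)` with `S ≤ s < 2S`, `1 ≤ t ≤ T`, `0 ≤ j < J` and `gcd(s, t) = 1`. -/
def triples (S T J : ℕ) : Finset (ℕ × ℕ × ℕ) :=
  (Ico S (2 * S) ×ˢ Icc 1 T ×ˢ range J).filter fun w => w.1.Coprime w.2.1

open Classical in
/-- For all `0 < α < 1` and `ε > 0`, all large `N`, every choice `a`, all `Y ≥ 0` and all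
`S, T, J` with `2S ≤ N^α`, `T < N^α` and `J ≤ N`: at most `N^ε (Y / N) (S T J + N^(2α-1))` of the
triples `(s, t, j)` have `S_b(N) ≤ Y` for the choice `b = (s / t) a - j N`. -/
theorem result (α ε : ℝ) (h0 : 0 < α) (h1 : α < 1) (hε : 0 < ε) :
    ∃ N₀ : ℕ, ∀ N : ℕ, N₀ ≤ N → ∀ a : (p : ℕ) → ZMod p, ∀ S T J : ℕ, 1 ≤ S → 1 ≤ T → 1 ≤ J →
      2 * (S : ℝ) ≤ (N : ℝ) ^ α → (T : ℝ) < (N : ℝ) ^ α → J ≤ N → ∀ Y : ℝ, 0 ≤ Y →
      (((triples S T J).filter fun w =>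
        (coveredCount α N (dilate a w.1 w.2.1 (w.2.2 * N)) : ℝ) ≤ Y).card : ℝ) ≤
      (N : ℝ) ^ ε * (Y / N) * (S * T * J + (N : ℝ) ^ (2 * α - 1)) := by
  obtain ⟨N₀, h⟩ := Zk72.Dil.part_one h0 h1 hε
  refine ⟨N₀, fun N hN a S T J hS hT hJ hS2 hT2 hJN Y hY => ?_⟩
  exact h N hN a S T J hS hT hJ hS2 hT2 hJN Y hY

end Pool.Agent.Results.MP_bb5cc8_nt.Dilates
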