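import Pool.Agent.Zk11.LC.All

/-!
# Covering `[1, N]` by one residue class for each prime near `N^α`: locally constant choices

`P` is the set of the primes `N^α ≤ p < 2 N^α`, `a` is a choice of one residue class modulo each prime
`p` of `P`, and `S_a(N)` is the number of the integers of `[1, N]` in at least one of these classes. Q1
asks whether `S_a(N) ≥ N^(1 - o(1))` for all choices `a`, if `1/2 < α < 1`.

A choice is constant on a set of primes if there is one integer `r` in `[1, N]` with `a(p) ≡ r (mod p)`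
for all elements `p` of the set. We divide `P` into the sets of the primes in one interval
`[j h, (j + 1) h)` and in one residue class modulo `L`, and consider the choices which are constant on
each of these about `Λ = L N^α / h` sets; the integers `r` of different sets are arbitrary. Then

  `S_a(N) ≥ N^2 / (10^9 τ(L) (log N)^5 (N^(1 - α) + Λ) (N^α + Λ N^(1 - α)))`,

where `τ(L)` is the number of the divisors of `L`, and, if `α > 1/2` and `Λ ≤ N^(1 - α)`,

  `S_a(N) ≥ N^2 / (10^9 τ(L) (log N)^5 (N + Λ N^α + Λ^2 N^(3 (1 - α) / 2)))`.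

So `S_a(N) ≥ N / (4 * 10^9 τ(L) (log N)^5)` if `α > 1/2`, `Λ ≤ N^(1 - α)` and one of
`Λ ≤ N^(2 α - 1)`, `Λ ≤ N^((3 α - 1) / 4)` holds; for `α = 0.51` this is the case for `Λ ≤ N^0.1325`.
If `a` is locally constant only at the primes of a subset of `κ |P|` elements, without any condition
for the other primes, there is an additional factor `κ^2`.

Proof. Second moment of the number of the representations `n = r(p) + m p` with `p` in `P` and a prime
`m` of the size of `N^(1 - α)`. If two such pairs have a common value, the blocks of `p` and `p'` together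
with `m` and `m'` satisfy an approximate equation and a congruence modulo `L`. By the Cauchy-Schwarz
inequality the number of the solutions for `m ≠ m'` is bounded by the number of the solutions for
`m = m'`, and there `m` is nearly determined by the two blocks. For given blocks and `m ≠ m'`, the prime
`p` is in a short interval and in one residue class modulo `m' L`. The second bound: for given blocks and
`m'`, the numbers `m` and `p` are in two progressions with the difference `L`, and `m p` is in a given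
class modulo `m'` different from `0`; the number of these pairs is bounded by Kloosterman sums.
-/

set_option autoImplicit false

namespace Pool.Agent.Results.MP_bb5cc8_nt.LocallyConstantChoices

open Finset
open Pool.Agent.H170R2.PC (coveredCount InRange)

/-- The choice `a` is, at the primes `p` of `Q`, the class of an integer of `[1, N]` which depends only
on the interval `[j h, (j + 1) h)` which contains `p` and on the residue of `p` modulo `L`. -/
def LocallyConstant (N h L : ℕ) (Q : Finset ℕ) (a : (p : ℕ) → ZMod p) : Prop :=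
  ∃ r : ℕ → ℕ → ℕ, (∀ j b, 1 ≤ r j b ∧ r j b ≤ N) ∧
    ∀ p ∈ Q, a p = (r (p / h) (p % L) : ZMod p)

/-- The number `Λ = L N^α / h`; the range of the primes is divided into about `Λ` sets. -/
noncomputable def pieces (α : ℝ) (N h L : ℕ) : ℝ := L * (N : ℝ) ^ α / h

/-- The proportion `κ` of the primes of `Q` among the primes `N^α ≤ p < 2 N^α`. -/
noncomputable def proportion (α : ℝ) (N : ℕ) (Q : Finset ℕ) : ℝ :=
  (Q.card : ℝ) / (Set.ncard {p : ℕ | InRange α N p} : ℝ)

/-- Let `0 < α < 1`. For all large `N`, all integers `1 ≤ L ≤ h ≤ N^α`, and every choice `a` which is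
locally constant at the primes of a set `Q` of primes of the range:
(1) `S_a(N) ≥ κ^2 N^2 / (10^9 τ(L) (log N)^5 (N^(1-α) + Λ) (N^α + Λ N^(1-α)))`;
(2) if `α > 1/2` and `Λ ≤ N^(1-α)`, then
`S_a(N) ≥ κ^2 N^2 / (10^9 τ(L) (log N)^5 (N + Λ N^α + Λ^2 N^(3(1-α)/2)))`;
(3) `S_a(N) ≥ κ^2 N / (4 * 10^9 τ(L) (log N)^5)` if `Λ ≤ N^(1-α)` and one of the following holds:
`Λ ≤ N^(2α-1)`; `α > 1/2` and `Λ ≤ N^((3α-1)/4)`. -/
theorem result (α : ℝ) (h0 : 0 < α) (h1 : α < 1) :
    ∃ N₀ : ℕ, ∀ N : ℕ, N₀ ≤ N → ∀ h L : ℕ, 1 ≤ L → L ≤ h → (h : ℝ) ≤ (N : ℝ) ^ α →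
      ∀ (a : (p : ℕ) → ZMod p) (Q : Finset ℕ), (∀ p ∈ Q, InRange α N p) →
      LocallyConstant N h L Q a →
      (proportion α N Q ^ 2 * (N : ℝ) ^ 2 / (10 ^ 9 * L.divisors.card * Real.log N ^ 5 *
        (((N : ℝ) ^ (1 - α) + pieces α N h L) *
          ((N : ℝ) ^ α + pieces α N h L * (N : ℝ) ^ (1 - α)))) ≤ (coveredCount α N a : ℝ)) ∧
      (1 / 2 < α → pieces α N h L ≤ (N : ℝ) ^ (1 - α) →
        proportion α N Q ^ 2 * (N : ℝ) ^ 2 / (10 ^ 9 * L.divisors.card * Real.log N ^ 5 *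
          (N + pieces α N h L * (N : ℝ) ^ α +
            pieces α N h L ^ 2 * (N : ℝ) ^ (3 * (1 - α) / 2))) ≤ (coveredCount α N a : ℝ)) ∧
      (pieces α N h L ≤ (N : ℝ) ^ (1 - α) →
        (pieces α N h L ≤ (N : ℝ) ^ (2 * α - 1) ∨
          (1 / 2 < α ∧ pieces α N h L ≤ (N : ℝ) ^ ((3 * α - 1) / 4))) →
        proportion α N Q ^ 2 * N / (4 * 10 ^ 9 * L.divisors.card * Real.log N ^ 5) ≤
          (coveredCount α N a : ℝ)) := by
  obtain ⟨N₀, h⟩ := Pool.Agent.Zk11.LC.main h0 h1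
  obtain ⟨N₁, h'⟩ : ∃ N₁ : ℕ, 1 / 2 < α → ∀ N ≥ N₁, ∀ h L : ℕ, 1 ≤ L →
      L ≤ h → (h : ℝ) ≤ (N : ℝ) ^ α →
      ∀ r : ℕ → ℕ → ℕ, (∀ j b, 1 ≤ r j b ∧ r j b ≤ N) → ∀ (a : (p : ℕ) → ZMod p) (Q : Finset ℕ),
      Q ⊆ Pool.Agent.H170R2.PC.PD α N → (∀ p ∈ Q, a p = (r (p / h) (p % L) : ZMod p)) →
      L * (N : ℝ) ^ α / h ≤ (N : ℝ) ^ (1 - α) →
      ((Q.card : ℝ) / (Pool.Agent.H170R2.PC.PD α N).card) ^ 2 * (N : ℝ) ^ 2 /
        (10 ^ 9 * L.divisors.card * Real.log N ^ 5 *
          (N + L * (N : ℝ) ^ α / h * (N : ℝ) ^ α + (L * (N : ℝ) ^ α / h) ^ 2 *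
            ((N : ℝ) ^ (1 - α) * Real.sqrt ((N : ℝ) ^ (1 - α))))) ≤
        (coveredCount α N a : ℝ) := by
    by_cases hα : 1 / 2 < α
    · obtain ⟨N₁, h'⟩ := Pool.Agent.Zk11.LC.main3 hα h1
      exact ⟨N₁, fun _ => h'⟩
    · exact ⟨0, fun h => absurd h hα⟩
  refine ⟨max (max N₀ N₁) 2, fun N hN h'' L hL hLh hhx a Q hQ ha => ?_⟩
  obtain ⟨r, hr, har⟩ := ha
  have e : Set.ncard {p : ℕ | InRange α N p} = (Pool.Agent.H170R2.PC.PD α N).card := by
    rw [← Set.ncard_coe_finset]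
    congr 1
    ext p
    rw [mem_coe, Set.mem_ofPred_eq, Pool.Agent.H170R2.PC.mem_PD]
  have hNN : max N₀ N₁ ≤ N := le_of_max_le_left hN
  have key := h N (le_of_max_le_left hNN) h'' L hL hLh hhx r hr a Q
    (fun p hp => Pool.Agent.H170R2.PC.mem_PD.2 (hQ p hp)) har
  have hN2 : 2 ≤ N := le_of_max_le_right hN
  have hN0 : (0 : ℝ) < N := by exact_mod_cast (by omega : 0 < N)
  have hlog : 0 < Real.log N := Real.log_pos (by exact_mod_cast (by omega : 1 < N))
  have hx0 : 0 < (N : ℝ) ^ α := Real.rpow_pos_of_pos hN0 _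
  have hz0 : 0 < (N : ℝ) ^ (1 - α) := Real.rpow_pos_of_pos hN0 _
  have hp0 : 0 ≤ pieces α N h'' L := by unfold pieces; positivity
  have hxz : (N : ℝ) ^ α * (N : ℝ) ^ (1 - α) = N := by
    rw [← Real.rpow_add hN0]
    norm_num
  have hτ : (0 : ℝ) < L.divisors.card := by
    exact_mod_cast card_pos.2 ⟨1, Nat.one_mem_divisors.2 (by omega)⟩
  have hkey : proportion α N Q ^ 2 * (N : ℝ) ^ 2 / (10 ^ 9 * L.divisors.card * Real.log N ^ 5 *
        (((N : ℝ) ^ (1 - α) + pieces α N h'' L) *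
          ((N : ℝ) ^ α + pieces α N h'' L * (N : ℝ) ^ (1 - α)))) ≤ (coveredCount α N a : ℝ) := by
    unfold proportion pieces
    rw [e]
    exact key
  have hkey2 : 1 / 2 < α → pieces α N h'' L ≤ (N : ℝ) ^ (1 - α) →
        proportion α N Q ^ 2 * (N : ℝ) ^ 2 / (10 ^ 9 * L.divisors.card * Real.log N ^ 5 *
          (N + pieces α N h'' L * (N : ℝ) ^ α +
            pieces α N h'' L ^ 2 * (N : ℝ) ^ (3 * (1 - α) / 2))) ≤ (coveredCount α N a : ℝ) := by
    intro hα hΛ
    have key2 := h' hα N (le_of_max_le_right hNN) h'' L hL hLh hhx r hr a Q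
      (fun p hp => Pool.Agent.H170R2.PC.mem_PD.2 (hQ p hp)) har hΛ
    have e2 : (N : ℝ) ^ (1 - α) * Real.sqrt ((N : ℝ) ^ (1 - α)) =
        (N : ℝ) ^ (3 * (1 - α) / 2) := by
      rw [Real.sqrt_eq_rpow, ← Real.rpow_mul hN0.le, ← Real.rpow_add hN0]
      congr 1
      ring
    rw [e2] at key2
    unfold proportion pieces
    rw [e]
    exact key2
  -- from the general bounds to the bound with `N` in the numerator
  have fin : ∀ U : ℝ, 0 < U → U ≤ 4 * N →
      proportion α N Q ^ 2 * (N : ℝ) ^ 2 / (10 ^ 9 * L.divisors.card * Real.log N ^ 5 * U) ≤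
        (coveredCount α N a : ℝ) →
      proportion α N Q ^ 2 * N / (4 * 10 ^ 9 * L.divisors.card * Real.log N ^ 5) ≤
        (coveredCount α N a : ℝ) := by
    intro U hU0 hU hb
    refine le_trans ?_ hb
    calc proportion α N Q ^ 2 * N / (4 * 10 ^ 9 * L.divisors.card * Real.log N ^ 5) =
        proportion α N Q ^ 2 * (N : ℝ) ^ 2 /
          (10 ^ 9 * L.divisors.card * Real.log N ^ 5 * (4 * N)) := by
          field_simp
      _ ≤ _ := by
          gcongr
  refine ⟨hkey, hkey2, fun h2 h3 => ?_⟩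
  rcases h3 with h3 | ⟨hα, h3⟩
  · refine fin _ (by positivity) ?_ hkey
    have hxz2 : (N : ℝ) ^ (2 * α - 1) * (N : ℝ) ^ (1 - α) = (N : ℝ) ^ α := by
      rw [← Real.rpow_add hN0]
      congr 1
      ring
    have h4 : pieces α N h'' L * (N : ℝ) ^ (1 - α) ≤ (N : ℝ) ^ α := by
      rw [← hxz2]
      exact mul_le_mul_of_nonneg_right h3 hz0.le
    calc ((N : ℝ) ^ (1 - α) + pieces α N h'' L) *
        ((N : ℝ) ^ α + pieces α N h'' L * (N : ℝ) ^ (1 - α)) ≤
        ((N : ℝ) ^ (1 - α) + (N : ℝ) ^ (1 - α)) * ((N : ℝ) ^ α + (N : ℝ) ^ α) := by gcongr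
      _ = 4 * ((N : ℝ) ^ α * (N : ℝ) ^ (1 - α)) := by ring
      _ = 4 * N := by rw [hxz]
  · refine fin _ (by positivity) ?_ (hkey2 hα h2)
    have h4 : pieces α N h'' L * (N : ℝ) ^ α ≤ N := by
      calc pieces α N h'' L * (N : ℝ) ^ α ≤ (N : ℝ) ^ (1 - α) * (N : ℝ) ^ α := by gcongr
        _ = N := by rw [mul_comm, hxz]
    have h5 : pieces α N h'' L ^ 2 * (N : ℝ) ^ (3 * (1 - α) / 2) ≤ (N : ℝ) := by
      have h6 : ((N : ℝ) ^ ((3 * α - 1) / 4)) ^ 2 * (N : ℝ) ^ (3 * (1 - α) / 2) = N := by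
        rw [← Real.rpow_natCast, ← Real.rpow_mul hN0.le, ← Real.rpow_add hN0]
        have : (3 * α - 1) / 4 * ((2 : ℕ) : ℝ) + 3 * (1 - α) / 2 = 1 := by
          push_cast
          ring
        rw [this, Real.rpow_one]
      calc pieces α N h'' L ^ 2 * (N : ℝ) ^ (3 * (1 - α) / 2) ≤
          ((N : ℝ) ^ ((3 * α - 1) / 4)) ^ 2 * (N : ℝ) ^ (3 * (1 - α) / 2) := by gcongr
        _ = (N : ℝ) := h6
    linarith

end Pool.Agent.Results.MP_bb5cc8_nt.LocallyConstantChoices
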