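import Pool.Agent.Zk72.Pen.Windows

/-!
For every choice `b` of one class modulo each prime `N^α ≤ p < 2 N^α`, `1/2 ≤ α < 1`, and all
directions `a₁, …, a_k` in general position, all but few of the choices
`b + s₁ a₁ + … + s_k a_k` with `0 ≤ s_i < N^((2α-1)/k)` cover almost `N` of the integers
`1, …, N`.
-/

set_option autoImplicit false

namespace Pool.Agent.Results.MP_bb5cc8_nt.Pencils

open Finset
open Pool.Agent.H170R2.PC (coveredCount InRange)

/-- The choice of residue classes `p ↦ b(p) + s₁ a₁(p) + … + s_k a_k(p)`. -/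
def pencil {k : ℕ} (b : (p : ℕ) → ZMod p) (a : Fin k → (p : ℕ) → ZMod p) (s : Fin k → ℕ) :
    (p : ℕ) → ZMod p := fun p => b p + ∑ i, (s i : ZMod p) * a i p

/-- The directions `a₁, …, a_k` are in general position, with the constant `M`: for all integers
`σ₁, …, σ_k`, not all zero, with `|σ_i| < S` and all integers `|h| < N` there are at most `M`
primes `N^α ≤ p < 2 N^α` with `h ≡ σ₁ a₁(p) + … + σ_k a_k(p) (mod p)`. -/
def Generic {k : ℕ} (α : ℝ) (N S M : ℕ) (a : Fin k → (p : ℕ) → ZMod p) : Prop :=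
  ∀ σ : Fin k → ℤ, σ ≠ 0 → (∀ i, |σ i| < S) → ∀ h : ℤ, |h| < N →
    Set.ncard {p : ℕ | InRange α N p ∧ (h : ZMod p) = ∑ i, (σ i : ZMod p) * a i p} ≤ M

open Classical in
/-- For all `1/2 ≤ α < 1`, all large `N`, all `k, S, M ≥ 1`, every choice `b`, all directions
`a₁, …, a_k` in general position and all `Y ≥ 0`: at most
`320 · 2^k (Y / N) (N^(2α-1) + M S^k log N)` of the `S^k` vectors `s` with `0 ≤ s_i < S` have
`S_c(N) ≤ Y` for the choice `c = b + s₁ a₁ + … + s_k a_k`. -/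
theorem result (α : ℝ) (h0 : 1 / 2 ≤ α) (h1 : α < 1) :
    ∃ N₀ : ℕ, ∀ N : ℕ, N₀ ≤ N → ∀ k S M : ℕ, 1 ≤ k → 1 ≤ S → 1 ≤ M →
      ∀ (b : (p : ℕ) → ZMod p) (a : Fin k → (p : ℕ) → ZMod p), Generic α N S M a →
      ∀ Y : ℝ, 0 ≤ Y →
      (((Fintype.piFinset fun _ : Fin k => range S).filter fun s =>
        (coveredCount α N (pencil b a s) : ℝ) ≤ Y).card : ℝ) ≤
      320 * 2 ^ k * (Y / N) * ((N : ℝ) ^ (2 * α - 1) + M * (S : ℝ) ^ k * Real.log N) := by
  obtain ⟨N₀, h⟩ := Zk72.Pen.main h0 h1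
  refine ⟨N₀, fun N hN k S M _ _ hM b a hg Y hY => ?_⟩
  refine h N hN k b a S M hM (fun σ hσ hσS m hm => ?_) Y hY
  refine le_trans (le_of_eq ?_) (hg σ hσ hσS m hm)
  rw [← Set.ncard_coe_finset]
  congr 1
  ext p
  rw [mem_coe, mem_filter, Set.mem_ofPred_eq, Pool.Agent.H170R2.PC.mem_PD]
  rfl

end Pool.Agent.Results.MP_bb5cc8_nt.Pencils
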