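import Pool.Agent.Zk41.SN.D
import Pool.Agent.TH539.CovS

/-!
Covering `[1, N]` by one residue class per prime near `N^α`: the lower bound for choices which
follow a curve, `a p = ⌊N^α ψ(p / N^α)⌉ mod p`.
-/

set_option autoImplicit false

open Finset Filter Topology

namespace Pool.Agent.Results.MP_bb5cc8_nt.SmoothChoices

open Pool.Agent.H170R2.PC Pool.Agent.Zk41.SN

/-- `Q` consists of primes `N^α ≤ p < 2 N^α` and makes up a proportion at least `N^(-δ)` of them. -/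
def Rich (α : ℝ) (N : ℕ) (δ : ℝ) (Q : Finset ℕ) : Prop :=
  (∀ p ∈ Q, InRange α N p) ∧
    (N : ℝ) ^ (-δ) * (Set.ncard {p : ℕ | InRange α N p} : ℝ) ≤ (Q.card : ℝ)

/-- For a proportion at least `N^(-δ)` of the primes the class `a p` contains an integer `b` with
`|b - N^α ψ(p / N^α)| ≤ N^δ`, where `ψ : [1, 2] → [-N^δ, N^(1-α)/2]` is differentiable, its derivative
`ψ'` is bounded by `N^δ` and is Lipschitz with constant `N^δ κ`. -/
def FollowsCurve (α : ℝ) (N : ℕ) (δ κ : ℝ) (a : (p : ℕ) → ZMod p) : Prop :=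
  ∃ ψ ψ' : ℝ → ℝ,
    (∀ t ∈ Set.Icc (1 : ℝ) 2, HasDerivWithinAt ψ (ψ' t) (Set.Icc 1 2) t) ∧
    (∀ t ∈ Set.Icc (1 : ℝ) 2, -(N : ℝ) ^ δ ≤ ψ t ∧ ψ t ≤ (N : ℝ) ^ (1 - α) / 2) ∧
    (∀ t ∈ Set.Icc (1 : ℝ) 2, |ψ' t| ≤ (N : ℝ) ^ δ) ∧
    (∀ s ∈ Set.Icc (1 : ℝ) 2, ∀ t ∈ Set.Icc (1 : ℝ) 2,
      |ψ' s - ψ' t| ≤ (N : ℝ) ^ δ * κ * |s - t|) ∧
    ∃ Q : Finset ℕ, Rich α N δ Q ∧ ∀ p ∈ Q, ∃ b : ℤ, (b : ZMod p) = a p ∧
      |(b : ℝ) - (N : ℝ) ^ α * ψ (p / (N : ℝ) ^ α)| ≤ (N : ℝ) ^ δ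

lemma rich_iff {α : ℝ} {N : ℕ} {δ : ℝ} {Q : Finset ℕ} (h : Rich α N δ Q) :
    Q ⊆ PD α N ∧ (N : ℝ) ^ (-δ) * ((PD α N).card : ℝ) ≤ (Q.card : ℝ) := by
  refine ⟨fun p hp => mem_PD.mpr (h.1 p hp), ?_⟩
  have : Set.ncard {p : ℕ | InRange α N p} = (PD α N).card := by
    rw [← Set.ncard_coe_finset]
    congr 1
    ext p
    simp [mem_PD]
  rw [← this]
  exact h.2

/-- the integers `b p + k p` are covered -/
lemma image_le {Q D : Finset ℕ} {a : (p : ℕ) → ZMod p} {b : ℕ → ℤ} {K N : ℕ} (hQD : Q ⊆ D)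
    (hb : ∀ p ∈ Q, (b p : ZMod p) = a p)
    (hr : ∀ p ∈ Q, ∀ k ∈ Ico K (2 * K), 1 ≤ b p + (k : ℤ) * p ∧ b p + (k : ℤ) * p ≤ N) :
    ((Q ×ˢ Ico K (2 * K)).image (fun z : ℕ × ℕ => b z.1 + (z.2 : ℤ) * z.1)).card ≤
      (Cov D a N).card := by
  classical
  apply card_le_card_of_injOn Int.toNat
  · intro n hn
    rw [mem_coe, mem_image] at hn
    obtain ⟨⟨p, k⟩, hz, rfl⟩ := hn
    rw [mem_product] at hz
    obtain ⟨h1, h2⟩ := hr p hz.1 k hz.2
    simp only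
    have h3 : ((b p + (k : ℤ) * p).toNat : ℤ) = b p + (k : ℤ) * p :=
      Int.toNat_of_nonneg (by omega)
    rw [mem_coe, Cov, mem_filter, mem_Icc]
    refine ⟨⟨by omega, by omega⟩, p, hQD hz.1, ?_⟩
    have h4 : (((b p + (k : ℤ) * p).toNat : ℕ) : ZMod p) =
        (((b p + (k : ℤ) * p).toNat : ℤ) : ZMod p) := by push_cast; rfl
    rw [h4, h3]
    push_cast
    rw [hb p hz.1, ZMod.natCast_self, mul_zero, add_zero]
  · intro n hn n' hn' he
    rw [mem_coe, mem_image] at hn hn'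
    obtain ⟨⟨p, k⟩, hz, rfl⟩ := hn
    obtain ⟨⟨p', k'⟩, hz', rfl⟩ := hn'
    rw [mem_product] at hz hz'
    have h1 := hr p hz.1 k hz.2
    have h2 := hr p' hz'.1 k' hz'.2
    simp only at he ⊢
    omega

lemma log_cube {η : ℝ} (hη : 0 < η) (hη1 : η ≤ 1) {N K : ℕ} (hK : 1 ≤ K) (hKN : 3 * K ≤ N) :
    (1 + Real.log (3 * K)) ^ 3 ≤ (2 / η) ^ 3 * (N : ℝ) ^ (3 * η) := by
  have hN0 : (0 : ℝ) < N := by
    have : 0 < N := by omega
    exact_mod_cast this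
  have hN1 : (1 : ℝ) ≤ N := by
    have : 1 ≤ N := by omega
    exact_mod_cast this
  have hK1 : (1 : ℝ) ≤ K := by exact_mod_cast hK
  have hKNR : 3 * (K : ℝ) ≤ N := by exact_mod_cast hKN
  have h1 : Real.log (3 * K) ≤ (N : ℝ) ^ η / η :=
    (Real.log_le_log (by positivity) hKNR).trans (Real.log_le_rpow_div hN0.le hη)
  have h0 : 0 ≤ Real.log (3 * K) := Real.log_nonneg (by linarith)
  have h2 : 1 ≤ (N : ℝ) ^ η := Real.one_le_rpow hN1 hη.le
  have h3 : 1 + Real.log (3 * K) ≤ (2 / η) * (N : ℝ) ^ η := by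
    have h4 : 1 ≤ (N : ℝ) ^ η / η := by
      rw [one_le_div hη]
      linarith
    calc 1 + Real.log (3 * K) ≤ (N : ℝ) ^ η / η + (N : ℝ) ^ η / η := by linarith
      _ = _ := by ring
  calc (1 + Real.log (3 * K)) ^ 3 ≤ ((2 / η) * (N : ℝ) ^ η) ^ 3 :=
        pow_le_pow_left₀ (by linarith) h3 3
    _ = (2 / η) ^ 3 * (N : ℝ) ^ (3 * η) := by
        rw [mul_pow, ← Real.rpow_mul_natCast hN0.le]
        congr 2
        push_cast
        ring

theorem part {α δ ε : ℝ} (hα : 1 / 2 ≤ α) (hα1 : α < 1) (hδ : 0 ≤ δ) (hδα : δ < 1 - α)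
    (hε : 0 < ε) :
    ∀ᶠ N : ℕ in atTop, ∀ (a : (p : ℕ) → ZMod p) (κ T : ℝ), 0 ≤ κ → κ ≤ 1 → 1 ≤ T →
      T ≤ (N : ℝ) ^ (1 - α) → κ * T ^ 2 ≤ (N : ℝ) ^ α → FollowsCurve α N δ κ a →
      T * (N : ℝ) ^ (α - 4 * δ - ε) ≤ (coveredCount α N a : ℝ) := by
  set η : ℝ := min (ε / 6) 1 with hη
  have hη0 : 0 < η := lt_min (by linarith) one_pos
  have hηε : η ≤ ε / 6 := min_le_left _ _
  have hη1 : η ≤ 1 := min_le_right _ _
  have hα0 : 0 < α := by linarith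
  filter_upwards [ev_card hα0 hα1.le hη0 hη1, ev_const 2000 (show (0 : ℝ) < 1 - α - δ by linarith),
    ev_const 20 (show (0 : ℝ) < 1 - α by linarith),
    ev_const (104280 * (2 / η) ^ 3) hη0, eventually_ge_atTop 1] with N h1 h2 h20 h3 hN1 a κ T hκ0 hκ1
      hT1 hTB hκT ha
  obtain ⟨ψ, ψ', hd, hψ, hl, hl2, Q, hQ, hQb⟩ := ha
  choose! b hb1 hb2 using hQb
  obtain ⟨hQD, hQc⟩ := rich_iff hQ
  have hN0 : (0 : ℝ) < N := by exact_mod_cast hN1
  have hN1' : (1 : ℝ) ≤ N := by exact_mod_cast hN1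
  set x : ℝ := (N : ℝ) ^ δ with hx
  set P : ℝ := (N : ℝ) ^ α with hP
  set B : ℝ := (N : ℝ) ^ (1 - α) with hB
  have hx1 : 1 ≤ x := Real.one_le_rpow hN1' hδ
  have hP1 : 1 ≤ P := Real.one_le_rpow hN1' hα0.le
  have hPB : P * B = N := by
    rw [hP, hB, ← Real.rpow_add hN0]; simp
  have hBx : 2000 * x ≤ B := by
    have : B = (N : ℝ) ^ (1 - α - δ) * x := by
      rw [hB, hx, ← Real.rpow_add hN0]; ring_nf
    rw [this]
    exact mul_le_mul_of_nonneg_right h2 (by linarith)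
  have hBP : B ≤ P := Real.rpow_le_rpow_of_exponent_le hN1' (by linarith)
  set K : ℕ := ⌊B / 10⌋₊ with hK
  have hK1 : (K : ℝ) ≤ B / 10 := Nat.floor_le (by positivity)
  have hK2 : B / 20 ≤ K := by
    have := Nat.sub_one_lt_floor (B / 10)
    rw [← hK] at this
    linarith
  have hK3 : 100 * x ≤ K := by linarith
  have hK0 : 1 ≤ K := by
    have : (1 : ℝ) ≤ K := by linarith
    exact_mod_cast this
  set H : ℕ := max 1 ⌊T / 20⌋₊ with hH
  have hH1 : 1 ≤ H := le_max_left _ _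
  have hHT : (H : ℝ) ≤ T := by
    rw [hH]
    push_cast
    refine max_le hT1 ((Nat.floor_le (by positivity)).trans ?_)
    linarith
  have hHT2 : T / 40 ≤ H := by
    rcases le_total 40 T with h5 | h5
    · have g1 := Nat.sub_one_lt_floor (T / 20)
      have g2 : ((⌊T / 20⌋₊ : ℕ) : ℝ) ≤ H := by exact_mod_cast le_max_right 1 ⌊T / 20⌋₊
      linarith
    · have g1 : (1 : ℝ) ≤ H := by exact_mod_cast hH1
      linarith
  have hHK : H ≤ K := by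
    rw [hH]
    refine max_le hK0 ?_
    rw [hK]
    refine Nat.floor_le_floor ?_
    linarith
  have hκ2 : κ * (H : ℝ) ^ 2 ≤ P := by
    calc κ * (H : ℝ) ^ 2 ≤ κ * T ^ 2 := by gcongr
      _ ≤ P := hκT
  have hQr : ∀ p ∈ Q, P ≤ (p : ℝ) ∧ (p : ℝ) ≤ 2 * P := by
    intro p hp
    obtain ⟨_, g2, g3⟩ := hQ.1 p hp
    exact ⟨g2, g3.le⟩
  have hdat := dat_of (K := K) (H := H) (Q := Q) (b := b) hx1 hκ0 hκ1 hK3 (by linarith) hH1
    hHK hκ2 hQr hd hl hl2 hb2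
  have hmain := hdat.main
  -- the covered integers
  have hrange : ∀ p ∈ Q, ∀ k ∈ Ico K (2 * K), 1 ≤ b p + (k : ℤ) * p ∧ b p + (k : ℤ) * p ≤ N := by
    intro p hp k hk
    rw [mem_Ico] at hk
    obtain ⟨g1, g2⟩ := hQr p hp
    have g3 := hb2 p hp
    have ht : (p : ℝ) / P ∈ Set.Icc (1 : ℝ) 2 :=
      ⟨by rw [one_le_div (by linarith)]; exact g1, by rw [div_le_iff₀ (by linarith)]; exact g2⟩
    obtain ⟨g4, g5⟩ := hψ _ ht
    have hk1 : (K : ℝ) ≤ k := by exact_mod_cast hk.1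
    have hk2 : (k : ℝ) ≤ 2 * K := by exact_mod_cast hk.2.le
    rw [abs_le] at g3
    have g6 : -(P * x) ≤ P * ψ (p / P) := by nlinarith
    have g7 : P * ψ (p / P) ≤ P * (B / 2) := by gcongr
    have g8 : (K : ℝ) * P ≤ k * p := by gcongr
    have g9 : (k : ℝ) * p ≤ 2 * K * (2 * P) := by gcongr
    have g10 : x ≤ P * x := le_mul_of_one_le_left (by linarith) hP1
    have g11 : 100 * x * P ≤ K * P := by gcongr
    have g12 : (K : ℝ) * P ≤ B / 10 * P := by gcongr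
    have g13 : 2000 * x * P ≤ B * P := by gcongr
    have g14 : (1 : ℝ) ≤ P * x := one_le_mul_of_one_le_of_one_le hP1 hx1
    constructor
    · have : (1 : ℝ) ≤ ((b p + (k : ℤ) * p : ℤ) : ℝ) := by
        push_cast
        nlinarith
      exact_mod_cast this
    · have : ((b p + (k : ℤ) * p : ℤ) : ℝ) ≤ ((N : ℤ) : ℝ) := by
        push_cast
        rw [← hPB]
        nlinarith
      exact_mod_cast this
  have hS := image_le (a := a) (D := PD α N) hQD hb1 hrange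
  rw [coveredCount_eq]
  set S := (Cov (PD α N) a N).card with hSdef
  have hSR : (((Q ×ˢ Ico K (2 * K)).image
      (fun z : ℕ × ℕ => b z.1 + (z.2 : ℤ) * z.1)).card : ℝ) ≤ S := by exact_mod_cast hS
  -- the logarithm
  have hKN : 3 * K ≤ N := by
    have : (3 : ℝ) * K ≤ N := by
      rw [← hPB]
      nlinarith
    exact_mod_cast this
  have hlog := log_cube hη0 hη1 hK0 hKN
  have hL0 : 0 ≤ (1 + Real.log (3 * K)) ^ 3 := by
    have hK1' : (1 : ℝ) ≤ K := by exact_mod_cast hK0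
    have : 0 ≤ Real.log (3 * K) := Real.log_nonneg (by linarith)
    positivity
  have hHpos : (0 : ℝ) < H := by exact_mod_cast hH1
  have hfin : ((Q.card : ℝ) * K) ^ 2 ≤
      S * (2607 * (P / H) * (K : ℝ) ^ 2 * x ^ 2 * ((2 / η) ^ 3 * (N : ℝ) ^ (3 * η))) := by
    refine hmain.trans ?_
    gcongr
  have hQ2 : (N : ℝ) ^ (-δ) * (N : ℝ) ^ (α - η) ≤ Q.card :=
    (mul_le_mul_of_nonneg_left h1 (by positivity)).trans hQc
  have hKpos : (0 : ℝ) < K := by linarith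
  have hfin2 : (Q.card : ℝ) ^ 2 * H ≤
      S * (2607 * P * x ^ 2 * ((2 / η) ^ 3 * (N : ℝ) ^ (3 * η))) := by
    have hKK : (0 : ℝ) < (K : ℝ) ^ 2 := by positivity
    refine le_of_mul_le_mul_right ?_ hKK
    calc (Q.card : ℝ) ^ 2 * H * (K : ℝ) ^ 2 = ((Q.card : ℝ) * K) ^ 2 * H := by ring
      _ ≤ (S * (2607 * (P / H) * (K : ℝ) ^ 2 * x ^ 2 * ((2 / η) ^ 3 * (N : ℝ) ^ (3 * η)))) * H := by
          gcongr
      _ = _ := by
          field_simp
  have hlow : ((N : ℝ) ^ (-δ) * (N : ℝ) ^ (α - η)) ^ 2 * (T / 40) ≤ (Q.card : ℝ) ^ 2 * H := by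
    gcongr
  have e1 : ((N : ℝ) ^ (-δ) * (N : ℝ) ^ (α - η)) ^ 2 * (T / 40) =
      T * (N : ℝ) ^ (α - 4 * δ - 6 * η) * ((N : ℝ) ^ η * (P * x ^ 2 * (N : ℝ) ^ (3 * η))) / 40 := by
    have g1 : ((N : ℝ) ^ (-δ) * (N : ℝ) ^ (α - η)) ^ 2 = (N : ℝ) ^ (2 * (α - η - δ)) := by
      rw [← Real.rpow_add hN0, ← Real.rpow_mul_natCast hN0.le]
      congr 1
      push_cast
      ring
    have g2 : x ^ 2 = (N : ℝ) ^ (2 * δ) := by
      rw [hx, ← Real.rpow_mul_natCast hN0.le]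
      congr 1
      push_cast
      ring
    have g3 : (N : ℝ) ^ (2 * (α - η - δ)) =
        (N : ℝ) ^ (α - 4 * δ - 6 * η) * ((N : ℝ) ^ η * (P * x ^ 2 * (N : ℝ) ^ (3 * η))) := by
      rw [g2, hP, ← Real.rpow_add hN0, ← Real.rpow_add hN0, ← Real.rpow_add hN0,
        ← Real.rpow_add hN0]
      congr 1
      ring
    rw [g1, g3]
    ring
  rw [e1] at hlow
  have hpos : 0 < P * x ^ 2 * (N : ℝ) ^ (3 * η) := by positivity
  have hT0 : 0 < T := by linarith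
  have hfin3 : T * (N : ℝ) ^ (α - 4 * δ - 6 * η) * (104280 * (2 / η) ^ 3) ≤
      S * (104280 * (2 / η) ^ 3) := by
    refine le_of_mul_le_mul_right ?_ hpos
    calc T * (N : ℝ) ^ (α - 4 * δ - 6 * η) * (104280 * (2 / η) ^ 3) *
          (P * x ^ 2 * (N : ℝ) ^ (3 * η))
        ≤ T * (N : ℝ) ^ (α - 4 * δ - 6 * η) * (N : ℝ) ^ η * (P * x ^ 2 * (N : ℝ) ^ (3 * η)) := by
          gcongr
      _ = 40 * (T * (N : ℝ) ^ (α - 4 * δ - 6 * η) *
          ((N : ℝ) ^ η * (P * x ^ 2 * (N : ℝ) ^ (3 * η))) / 40) := by ring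
      _ ≤ 40 * (S * (2607 * P * x ^ 2 * ((2 / η) ^ 3 * (N : ℝ) ^ (3 * η)))) := by
          have := hlow.trans hfin2
          linarith
      _ = _ := by ring
  have hc : (0 : ℝ) < 104280 * (2 / η) ^ 3 := by positivity
  have hfin4 : T * (N : ℝ) ^ (α - 4 * δ - 6 * η) ≤ S := le_of_mul_le_mul_right hfin3 hc
  refine le_trans (mul_le_mul_of_nonneg_left
    (Real.rpow_le_rpow_of_exponent_le hN1' ?_) hT0.le) hfin4
  linarith

/-- **Smooth choices.** Let `1/2 ≤ α < 1`, `0 ≤ δ < 1 - α` and `ε > 0`. For `N ≥ N₀(α, δ, ε)` and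
every choice of classes which, for a proportion at least `N^(-δ)` of the primes, follows a curve
`N^α ψ(p / N^α)` up to `N^δ`:

(1) at least `N^(min(1, 3 α / 2) - 4 δ - ε)` integers of `[1, N]` are covered, so `N^(1 - 4 δ - ε)`
if `α ≥ 2 / 3`;

(2) at least `N^(1 - 4 δ - ε)` integers of `[1, N]` are covered if the Lipschitz constant of `ψ'` is at
most `N^δ κ` with `κ ≤ 1`, `κ ≤ N^(3 α - 2)`. -/
theorem result {α δ ε : ℝ} (hα : 1 / 2 ≤ α) (hα1 : α < 1) (hδ : 0 ≤ δ) (hδα : δ < 1 - α)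
    (hε : 0 < ε) :
    ∃ N₀ : ℕ, ∀ N : ℕ, N₀ ≤ N → ∀ a : (p : ℕ) → ZMod p,
      (FollowsCurve α N δ 1 a →
        (N : ℝ) ^ (min 1 (3 * α / 2) - 4 * δ - ε) ≤ (coveredCount α N a : ℝ)) ∧
      (∀ κ : ℝ, 0 ≤ κ → κ ≤ 1 → κ ≤ (N : ℝ) ^ (3 * α - 2) → FollowsCurve α N δ κ a →
        (N : ℝ) ^ (1 - 4 * δ - ε) ≤ (coveredCount α N a : ℝ)) := by
  obtain ⟨N₀, hN₀⟩ := eventually_atTop.mp (part hα hα1 hδ hδα hε)
  refine ⟨N₀ + 1, fun N hN a => ?_⟩
  have hN0 : (0 : ℝ) < N := by exact_mod_cast (by omega : 0 < N)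
  have hN1 : (1 : ℝ) ≤ N := by exact_mod_cast (by omega : 1 ≤ N)
  have h := hN₀ N (by omega) a
  constructor
  · intro ha
    have hm : 0 ≤ min (1 - α) (α / 2) := le_min (by linarith) (by linarith)
    have h1 := h 1 ((N : ℝ) ^ (min (1 - α) (α / 2))) zero_le_one le_rfl
      (Real.one_le_rpow hN1 hm)
      (Real.rpow_le_rpow_of_exponent_le hN1 (min_le_left _ _))
      (by
        rw [one_mul, ← Real.rpow_mul_natCast hN0.le]
        refine Real.rpow_le_rpow_of_exponent_le hN1 ?_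
        have := min_le_right (1 - α) (α / 2)
        push_cast
        linarith) ha
    rw [← Real.rpow_add hN0] at h1
    refine le_of_eq_of_le ?_ h1
    congr 1
    rcases le_total (1 - α) (α / 2) with h2 | h2
    · rw [min_eq_left h2, min_eq_left (by linarith)]
      ring
    · rw [min_eq_right h2, min_eq_right (by linarith)]
      ring
  · intro κ hκ0 hκ1 hκ ha
    have h1 := h κ ((N : ℝ) ^ (1 - α)) hκ0 hκ1 (Real.one_le_rpow hN1 (by linarith)) le_rfl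
      (by
        calc κ * ((N : ℝ) ^ (1 - α)) ^ 2 ≤ (N : ℝ) ^ (3 * α - 2) * ((N : ℝ) ^ (1 - α)) ^ 2 := by
              gcongr
          _ = (N : ℝ) ^ α := by
              rw [← Real.rpow_mul_natCast hN0.le, ← Real.rpow_add hN0]
              congr 1
              push_cast
              ring) ha
    rw [← Real.rpow_add hN0] at h1
    refine le_of_eq_of_le ?_ h1
    congr 1
    ring

end Pool.Agent.Results.MP_bb5cc8_nt.SmoothChoices
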